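import Pool.Agent.P.MP_7b0970_co.Ob.Dir

/-! The block argument and the count of inputs. -/

open MeasureTheory ProbabilityTheory Matrix Real Finset
open scoped ENNReal

namespace Pool.Agent.P.MP_7b0970_co.Ob

open On

variable {B : Type} [Fintype B] [DecidableEq B] {d k Q n : ℕ}

/-- The rows of block `b` after `s` steps. -/
noncomputable def cf (x : B → Fin k → Let d Q) (b : B) (s : ℕ) : Matrix (Fin d) (B × Fin k) ℝ :=
  of fun i p => if p.1 = b ∧ p.2.val < s then lv (x p.1 p.2) i else 0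

/-- The letter is a good choice at time `t`. -/
def Good (ι : B × Fin k → ℕ) (r : ℝ) (Γ : Matrix (B × Fin k) (B × Fin k) ℝ)
    (x : B → Fin k → Let d Q) (t : B × Fin k) (l : Let d Q) : Prop :=
  1 / 2 ≤ lv l ⬝ᵥ lv l ∧ (lv l ᵥ* cf x t.1 t.2) ⬝ᵥ Γ *ᵥ (lv l ᵥ* cf x t.1 t.2) ≤ r ∧
    ∀ p, ι p < ι t → |(Γ *ᵥ (lv l ᵥ* cf x t.1 t.2)) p| ≤ 1 / 12

variable {ι : B × Fin k → ℕ} {r : ℝ}

lemma good_congr (hι : ∀ b s s', s' < s → ι (b, s') < ι (b, s))
    {Γ Γ' : Matrix (B × Fin k) (B × Fin k) ℝ} {x y : B → Fin k → Let d Q} {t : B × Fin k}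
    (hx : ∀ p, ι p < ι t → x p.1 p.2 = y p.1 p.2)
    (hΓ : ∀ p p', ι p < ι t → ι p' < ι t → Γ p p' = Γ' p p') :
    Good ι r Γ x t = Good ι r Γ' y t := by
  have h0 : ∀ p : B × Fin k, p.1 = t.1 ∧ p.2.val < t.2 → ι p < ι t := by
    rintro ⟨b, s⟩ ⟨rfl, h⟩
    exact hι _ _ _ h
  have h1 : cf x t.1 t.2 = cf y t.1 t.2 := by
    ext i p
    simp only [cf, of_apply]
    split_ifs with h
    exacts [by rw [hx p (h0 p h)], rfl]
  funext l
  have h2 : ∀ p, ¬ ι p < ι t → (lv l ᵥ* cf y t.1 t.2) p = 0 := fun p hp => by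
    simp only [vecMul, dotProduct, cf, of_apply, if_neg (mt (h0 p) hp), mul_zero, sum_const_zero]
  have h3 : ∀ p, ι p < ι t → (Γ *ᵥ (lv l ᵥ* cf y t.1 t.2)) p = (Γ' *ᵥ (lv l ᵥ* cf y t.1 t.2)) p :=
    fun p hp => sum_congr rfl fun p' _ => by
      by_cases h : ι p' < ι t
      exacts [congrArg (· * _) (hΓ p p' hp h), by rw [h2 p' h, mul_zero, mul_zero]]
  have h4 : (lv l ᵥ* cf y t.1 t.2) ⬝ᵥ Γ *ᵥ (lv l ᵥ* cf y t.1 t.2) =
      (lv l ᵥ* cf y t.1 t.2) ⬝ᵥ Γ' *ᵥ (lv l ᵥ* cf y t.1 t.2) := sum_congr rfl fun p _ => by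
    by_cases h : ι p < ι t
    exacts [by rw [h3 p h], by rw [h2 p h, zero_mul, zero_mul]]
  simp only [Good, h1, h4]
  exact congrArg _ (congrArg _ (forall_congr fun p => forall_congr fun hp => by rw [h3 p hp]))

lemma gram_apply {T : Type} [Fintype T] (u : Matrix T (Fin n) ℝ) (c : T → ℝ) :
    (u * uᵀ) *ᵥ c = u *ᵥ (c ᵥ* u) := by rw [← mulVec_mulVec, mulVec_transpose]

lemma good_iff (u : Matrix (B × Fin k) (Fin n) ℝ) (x : B → Fin k → Let d Q) (t : B × Fin k)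
    (l : Let d Q) : Good ι r (u * uᵀ) x t l ↔ 1 / 2 ≤ lv l ⬝ᵥ lv l ∧
      (lv l ᵥ* (cf x t.1 t.2 * u)) ⬝ᵥ (lv l ᵥ* (cf x t.1 t.2 * u)) ≤ r ∧
        ∀ p, ι p < ι t → |u p ⬝ᵥ lv l ᵥ* (cf x t.1 t.2 * u)| ≤ 1 / 12 := by
  simp only [Good, gram_apply, dotProduct_mulVec, vecMul_vecMul]
  rfl

lemma cf_succ (u : Matrix (B × Fin k) (Fin n) ℝ) (x : B → Fin k → Let d Q) (b : B) (s : Fin k)
    (i : Fin d) : (cf x b (s + 1) * u) i = (cf x b s * u) i + lv (x b s) i • u (b, s) := by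
  have : cf x b (s + 1) i = cf x b s i + lv (x b s) i • Pi.single (b, s) 1 := by
    funext ⟨b', s'⟩
    simp only [cf, of_apply, Pi.add_apply, Pi.smul_apply, Pi.single_apply, Prod.mk.injEq,
      Fin.ext_iff, smul_eq_mul]
    split_ifs with h1 h2 h3 <;> try first | omega | simp
    · obtain ⟨rfl, e⟩ := ‹b' = b ∧ _ = _›
      rw [Fin.ext e]
    all_goals grind
  show cf x b (s + 1) i ᵥ* u = cf x b s i ᵥ* u + _
  rw [this, add_vecMul, smul_vecMul, single_one_vecMul]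
  rfl

lemma block (u : Matrix (B × Fin k) (Fin n) ℝ) (h1 : ∀ j, u j ⬝ᵥ u j = 1)
    (x : B → Fin k → Let d Q) (b : B) {τ θ : ℝ} (hτ : 5 / 4 * k ≤ τ) (hθ : 0 ≤ θ)
    (hr : r * (2 * θ) ≤ 1 / 576)
    (hg : ∀ s : Fin k, ∑ i, (cf x b s * u) i ⬝ᵥ (cf x b s * u) i ≤ τ →
      Good ι r (u * uᵀ) x (b, s) (x b s))
    (hn : ∀ s, ∃ p, ι p < ι (b, s) ∧ 1 - θ ≤ u p ⬝ᵥ u (b, s)) (s : ℕ) (hs : s ≤ k) :
    (s : ℝ) / 4 ≤ ∑ i, (cf x b s * u) i ⬝ᵥ (cf x b s * u) i ∧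
      ∑ i, (cf x b s * u) i ⬝ᵥ (cf x b s * u) i ≤ 5 / 4 * s := by
  induction s with
  | zero => simp [show cf x b 0 = 0 by ext; simp [cf], dotProduct]
  | succ s ih =>
    obtain ⟨i1, i2⟩ := ih (by omega)
    have s1 : (s : ℝ) ≤ k := by exact_mod_cast (show s ≤ k by omega)
    obtain ⟨g1, g2, g3⟩ := (good_iff u x _ _).1 (hg ⟨s, hs⟩ (i2.trans (by linarith)))
    obtain ⟨p, p1, p2⟩ := hn ⟨s, hs⟩
    have g4 := lv_le (x b ⟨s, hs⟩)
    have g5 := abs_le.1 (g3 p p1)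
    have e := cf_succ u x b ⟨s, hs⟩
    simp only at e g2 g5
    generalize lv (x b ⟨s, hs⟩) = a at *
    generalize cf x b s * u = W at *
    have v1 := h1 (b, ⟨s, hs⟩)
    generalize u (b, ⟨s, hs⟩) = v at *
    have e1 : ∑ i, (cf x b (s + 1) * u) i ⬝ᵥ (cf x b (s + 1) * u) i =
        ∑ i, W i ⬝ᵥ W i + 2 * v ⬝ᵥ a ᵥ* W + a ⬝ᵥ a := by
      rw [dotProduct_comm v, ← dotProduct_mulVec,
        show a ⬝ᵥ W *ᵥ v = ∑ i, a i * W i ⬝ᵥ v from rfl, show a ⬝ᵥ a = ∑ i, a i * a i from rfl,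
        mul_sum, ← sum_add_distrib, ← sum_add_distrib]
      refine sum_congr rfl fun i _ => ?_
      simp only [e, add_dotProduct, dotProduct_add, smul_dotProduct, dotProduct_smul, v1,
        smul_eq_mul, dotProduct_comm v (W i)]
      ring
    have e2 : (v - u p) ⬝ᵥ (v - u p) ≤ 2 * θ := by
      simp only [sub_dotProduct, dotProduct_sub, v1, h1, dotProduct_comm v]
      linarith
    have e3 := abs_le_of_sq_le_sq' (b := 1 / 24) ((cs (v - u p) (a ᵥ* W)).trans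
      ((mul_le_mul e2 g2 (dot_nonneg _) (by positivity)).trans (by linarith))) (by norm_num)
    rw [sub_dotProduct] at e3
    rw [e1]
    push_cast
    constructor <;> linarith [e3.1, e3.2, g5.1, g5.2]

lemma count {Λ : Type} [Fintype Λ] [DecidableEq Λ] [AddCommGroup Λ] {G H : ℕ}
    (hH : H = 2 * G * Fintype.card Λ ^ k) {ι : (Fin G × Fin H) × Fin k → ℕ}
    (φ : (Fin G × Fin H → Fin k → Λ) → Fin G × Fin H → Fin k → Λ)
    (hφ : ∀ x y t, (∀ p, ι p < ι t → x p.1 p.2 = y p.1 p.2) → φ x t.1 t.2 = φ y t.1 t.2) :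
    2 * #{x | ∃ γ, ∀ β, x (γ, β) ≠ φ x (γ, β)} ≤ Fintype.card (Fin G × Fin H → Fin k → Λ) := by
  obtain ⟨Z, hZ⟩ : ∃ Z : ℝ, Z = Fintype.card Λ ^ k := ⟨_, rfl⟩
  have Z1 : 1 ≤ Z := hZ ▸ one_le_pow₀ (by exact_mod_cast Fintype.card_pos)
  have h1 : ∀ γ, (#{x | ∀ β, x (γ, β) ≠ φ x (γ, β)} : ℝ) ≤ Z ^ (G * H) * (1 - 1 / Z) ^ H := by
    intro γ
    have h2 : #{x | ∀ β, x (γ, β) ≠ φ x (γ, β)} ≤ #(Fintype.piFinset fun b : Fin G × Fin H =>
        if b.1 = γ then (univ : Finset (Fin k → Λ)).erase 0 else univ) := by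
      refine card_le_card_of_injOn (fun x => x - φ x) (fun x hx => ?_) fun x _ y _ e => ?_
      · refine mem_coe.2 (Fintype.mem_piFinset.2 fun ⟨γ', β⟩ => ?_)
        split_ifs with h
        · obtain rfl : γ' = γ := h
          exact mem_erase.2 ⟨sub_ne_zero.2 ((mem_filter.1 (mem_coe.1 hx)).2 β), mem_univ _⟩
        · exact mem_univ _
      · have : ∀ j, ∀ t, ι t = j → x t.1 t.2 = y t.1 t.2 := fun j => by
          induction j using Nat.strong_induction_on with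
          | _ j ih =>
            rintro t rfl
            have := congrFun (congrFun e t.1) t.2
            simp only [Pi.sub_apply, hφ x y t fun p hp => ih _ hp p rfl] at this
            exact sub_left_injective this
        exact funext₂ fun b s => this _ (b, s) rfl
    refine (Nat.cast_le.2 h2).trans_eq ?_
    have h3 : ∀ b : Fin G × Fin H, (#(if b.1 = γ then (univ : Finset (Fin k → Λ)).erase 0
        else univ) : ℝ) = Z * if b.1 = γ then 1 - 1 / Z else 1 := fun b => by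
      split_ifs
      · rw [card_erase_of_mem (mem_univ _), Nat.cast_pred (card_pos.2 univ_nonempty), mul_sub,
          mul_one_div_cancel (by linarith), hZ]
        simp
      · simp [hZ]
    rw [Fintype.card_piFinset, Nat.cast_prod, prod_congr rfl fun b _ => h3 b, prod_mul_distrib]
    simp [Fintype.prod_prod_type_right]
  have h4 : (1 - 1 / Z) ^ H * (2 * G) ≤ 1 := by
    have a1 : (1 - 1 / Z) ^ H ≤ exp (-(1 / Z)) ^ H := pow_le_pow_left₀
      (sub_nonneg.2 (div_le_one_of_le₀ Z1 (by linarith))) (by linarith [add_one_le_exp (-(1 / Z))]) _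
    have a2 : exp (-(1 / Z)) ^ H * exp (2 * G) = 1 := by
      rw [← exp_nat_mul, ← exp_add, hH, exp_eq_one_iff]
      push_cast
      rw [← hZ]
      field_simp
      ring
    exact (mul_le_mul a1 (by linarith [add_one_le_exp (2 * G : ℝ)]) (by positivity)
      (by positivity)).trans_eq a2
  have h5 : #{x | ∃ γ, ∀ β, x (γ, β) ≠ φ x (γ, β)} ≤ ∑ γ, #{x | ∀ β, x (γ, β) ≠ φ x (γ, β)} := by
    refine le_trans (card_le_card fun x hx => ?_) card_biUnion_le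
    simpa using hx
  have h6 := (Nat.cast_le (α := ℝ)).2 h5
  rw [Nat.cast_sum] at h6
  have h7 := h6.trans (sum_le_card_nsmul _ _ _ fun γ _ => h1 γ)
  rw [← Nat.cast_le (α := ℝ)]
  simp only [card_univ, Fintype.card_fin, nsmul_eq_mul, Fintype.card_fun, Fintype.card_prod,
    Nat.cast_mul, Nat.cast_pow, ← hZ, Nat.cast_ofNat] at h7 ⊢
  nlinarith [mul_le_mul_of_nonneg_left h4 (show 0 ≤ Z ^ (G * H) by positivity)]

open Classical in
theorem core {N G H : ℕ} (hN : 0 < N) (hd : d = 2 ^ 20 * N ^ 4) (hk : k = 17 * N ^ 2 * d)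
    (hQ : Q = 113 * N * d) (hG : 2 * exp ((2 ^ 21 * N ^ 3) ^ 2 / 2) < G)
    (hH : H = 2 * G * Fintype.card (Let d Q) ^ k) {ι : (Fin G × Fin H) × Fin k → ℕ}
    (hi : Function.Injective ι) (hι : ∀ b s s', s' < s → ι (b, s') < ι (b, s))
    (Γ : (Fin G × Fin H → Fin k → Let d Q) →
      Matrix ((Fin G × Fin H) × Fin k) ((Fin G × Fin H) × Fin k) ℝ)
    (hΓ : ∀ x y t, (∀ p, ι p < ι t → x p.1 p.2 = y p.1 p.2) →
      ∀ p p', ι p < ι t → ι p' < ι t → Γ x p p' = Γ y p p')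
    (s : Finset (Fin G × Fin H → Fin k → Let d Q))
    (hs : ∀ x ∈ s, ∃ u : Matrix ((Fin G × Fin H) × Fin k) (Fin n) ℝ, Γ x = u * uᵀ ∧
      (∀ j, u j ⬝ᵥ u j = 1) ∧ ∫⁻ g, ENNReal.ofReal ‖u *ᵥ g‖ ∂ga n ≤ ENNReal.ofReal (2 * N) ∧
      ∀ b i, (cf x b k * u) i ⬝ᵥ (cf x b k * u) i ≤ 4 * N ^ 2) :
    2 * #s ≤ Fintype.card (Fin G × Fin H → Fin k → Let d Q) := by
  subst hQ
  have N0 : (0 : ℝ) < N := by exact_mod_cast hN
  have d0 : (0 : ℝ) < d := by rw [hd]; positivity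
  let φ : (Fin G × Fin H → Fin k → Let d (113 * N * d)) → Fin G × Fin H → Fin k → _ :=
    fun x b s => Classical.epsilon (Good ι (147 * N ^ 2) (Γ x) x (b, s))
  refine le_trans (Nat.mul_le_mul_left 2 (card_le_card fun x hx => ?_)) (count hH φ
    fun x y t h => congrArg Classical.epsilon (good_congr hι h (hΓ x y t h)))
  obtain ⟨u, e, u1, u2, u3⟩ := hs x hx
  rw [mem_filter_univ]
  by_contra hc
  push Not at hc
  choose β hβ using hc
  have nov : ∀ γ, ∃ s, ∀ p, ι p < ι ((γ, β γ), s) →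
      u p ⬝ᵥ u ((γ, β γ), s) ≤ 1 - 1 / (2 ^ 18 * N ^ 2) := fun γ => by
    by_contra hn
    push Not at hn
    have h1 := (block (r := 147 * N ^ 2) u u1 x (γ, β γ) (τ := 22 * N ^ 2 * d)
      (θ := 1 / (2 ^ 18 * N ^ 2)) (by rw [hk]; push_cast; nlinarith [mul_pos (pow_pos N0 2) d0])
      (by positivity) (by field_simp; norm_num) (fun s hs => ?_)
      (fun s => (hn s).imp fun p h => ⟨h.1, h.2.le⟩) k le_rfl).1
    · have h2 := h1.trans (sum_le_card_nsmul _ _ _ fun i _ => u3 _ i)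
      rw [card_univ, Fintype.card_fin, nsmul_eq_mul, hk] at h2
      push_cast at h2
      nlinarith [mul_pos (pow_pos N0 2) d0]
    · obtain ⟨l, l1, l2, l3⟩ := exists_good u u1 hN hd u2 _ hs
      rw [← e, congrFun (hβ γ) s]
      exact Classical.epsilon_spec (p := Good ι _ (Γ x) x ((γ, β γ), s))
        ⟨l, e ▸ (good_iff u x _ l).2 ⟨l1, l2, fun p _ => l3 p⟩⟩
  choose t ht using nov
  have h1 := sud u u1 (θ := 1 / (2 ^ 18 * N ^ 2)) (by positivity) (by positivity)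
    (univ.map ⟨fun γ => ((γ, β γ), t γ), fun _ _ e => congrArg (·.1.1) e⟩) (fun i hi' j hj ne => by
      obtain ⟨i, -, rfl⟩ := mem_map.1 hi'
      obtain ⟨j, -, rfl⟩ := mem_map.1 hj
      rcases lt_or_gt_of_ne (hi.ne ne) with h | h
      exacts [ht _ _ h, (dotProduct_comm _ _).trans_le (ht _ _ h)]) u2
  rw [card_map, card_univ, Fintype.card_fin,
    show 4 * (2 * (N : ℝ)) / (1 / (2 ^ 18 * N ^ 2)) = 2 ^ 21 * N ^ 3 by field_simp; ring] at h1
  exact h1.not_gt hG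

end Pool.Agent.P.MP_7b0970_co.Ob
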