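import Pool.Agent.P.MP_7b0970_co.Ob.Sud

/-! A direction that is almost orthogonal to all vectors of a set of small width. -/

open MeasureTheory ProbabilityTheory Matrix Real Finset
open scoped ENNReal

namespace Pool.Agent.P.MP_7b0970_co.Ob

open On

variable {d n : ℕ}

lemma cs {ι : Type} [Fintype ι] (x y : ι → ℝ) : (x ⬝ᵥ y) ^ 2 ≤ x ⬝ᵥ x * y ⬝ᵥ y := by
  simpa only [dotProduct, sq] using sum_mul_sq_le_sq_mul_sq univ x y

lemma dot_nonneg {ι : Type} [Fintype ι] (x : ι → ℝ) : 0 ≤ x ⬝ᵥ x :=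
  sum_nonneg fun _ _ => mul_self_nonneg _

lemma exists_half (W : Matrix (Fin d) (Fin n) ℝ) {r : ℝ} (hr : 0 < r)
    (hτ : 2 * ∑ i, W i ⬝ᵥ W i ≤ r * d) : ∃ (J : Finset (Fin d)) (V : Matrix (Fin d) (Fin d) ℝ),
      (d : ℝ) ≤ 2 * #J ∧ ∀ g, (V *ᵥ g) ⬝ᵥ (V *ᵥ g) = ∑ j ∈ J, g j ^ 2 ∧
        ((V *ᵥ g) ᵥ* W) ⬝ᵥ ((V *ᵥ g) ᵥ* W) ≤ r * ∑ j ∈ J, g j ^ 2 := by
  have hP : (W * Wᵀ).PosSemidef := by simpa using posSemidef_self_mul_conjTranspose W
  have hM := hP.1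
  set v : Fin d → Fin d → ℝ := fun j => (hM.eigenvectorBasis j).ofLp
  have o : ∀ i j, v i ⬝ᵥ v j = if i = j then 1 else 0 := fun i j => by
    have := orthonormal_iff_ite.1 hM.eigenvectorBasis.orthonormal j i
    rwa [EuclideanSpace.inner_eq_star_dotProduct, star_trivial, if_congr eq_comm rfl rfl] at this
  have e : ∀ j, (W * Wᵀ) *ᵥ v j = hM.eigenvalues j • v j := hM.mulVec_eigenvectorBasis
  have t : ∑ j, hM.eigenvalues j = ∑ i, W i ⬝ᵥ W i := by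
    have := hM.trace_eq_sum_eigenvalues
    simp only [RCLike.ofReal_real_eq_id, id] at this
    rw [← this]
    rfl
  set J := univ.filter fun j => hM.eigenvalues j ≤ r
  refine ⟨J, of fun i j => if j ∈ J then v j i else 0, ?_, fun g => ?_⟩
  · have h1 : #Jᶜ • r ≤ ∑ j, hM.eigenvalues j :=
      (card_nsmul_le_sum _ _ _ fun j hj => le_of_not_ge (by simpa [J] using hj)).trans
        (sum_le_sum_of_subset_of_nonneg (subset_univ _) fun j _ _ => hP.eigenvalues_nonneg j)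
    have h2 : (#J : ℝ) + #Jᶜ = d := by
      rw [← Nat.cast_add, card_add_card_compl, Fintype.card_fin]
    rw [nsmul_eq_mul, t] at h1
    nlinarith
  · have h1 : (of fun i j => if j ∈ J then v j i else 0) *ᵥ g = ∑ j ∈ J, g j • v j := by
      funext i
      simp [mulVec, dotProduct, Finset.sum_apply, mul_comm]
    have h2 : ∀ c : Fin d → ℝ, (∑ j ∈ J, g j • v j) ⬝ᵥ ∑ j ∈ J, (c j * g j) • v j =
        ∑ j ∈ J, c j * g j ^ 2 := fun c => by
      rw [sum_dotProduct]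
      refine sum_congr rfl fun j hj => ?_
      simp [dotProduct_sum, o, hj]
      ring
    rw [h1]
    refine ⟨by simpa using h2 1, ?_⟩
    rw [← dotProduct_mulVec, ← mulVec_transpose, mulVec_mulVec, mulVec_sum, mul_sum]
    simp only [mulVec_smul, e, smul_smul, mul_comm (g _), h2]
    exact sum_le_sum fun j hj => mul_le_mul_of_nonneg_right (mem_filter.1 hj).2 (sq_nonneg _)

lemma exists_dir (hd : 0 < d) {N : Seminorm ℝ (Fin n → ℝ)} (hN : Continuous N)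
    (W : Matrix (Fin d) (Fin n) ℝ) {ρ L : ℝ} (hρ : 0 < ρ) (hL : 0 < L)
    (hτ : 2 * ∑ i, W i ⬝ᵥ W i ≤ ρ ^ 2 * d) 
    (h : mean N 1 (1 : Matrix (Fin n) (Fin n) ℝ) ≤ ENNReal.ofReal L) :
    ∃ a : Fin d → ℝ, a ⬝ᵥ a = 1 ∧ (a ᵥ* W) ⬝ᵥ (a ᵥ* W) ≤ ρ ^ 2 ∧
      N (a ᵥ* W) ^ 2 * d ≤ 9 * ρ ^ 2 * L ^ 2 := by
  obtain ⟨J, V, hJ, hV⟩ := exists_half W (by positivity) hτ
  have d0 : (0 : ℝ) < d := by exact_mod_cast hd
  have e : ∀ g, (Wᵀ * V) *ᵥ g = (V *ᵥ g) ᵥ* W := fun g => by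
    rw [← mulVec_mulVec, mulVec_transpose]
  have p : (ρ ^ 2 • (1 : Matrix (Fin n) (Fin n) ℝ) -
      Wᵀ * V * (1 : Matrix (Fin d) (Fin d) ℝ) * (Wᵀ * V)ᵀ).PosSemidef := by
    refine PosSemidef.of_dotProduct_mulVec_nonneg
      ((PosSemidef.one.smul (sq_nonneg ρ)).1.sub (psd_conj PosSemidef.one _).1) fun x => ?_
    rw [star_trivial, sub_mulVec, dotProduct_sub, quad_conj, one_mulVec, smul_mulVec, one_mulVec,
      dotProduct_smul, smul_eq_mul, sub_nonneg]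
    set g := x ᵥ* (Wᵀ * V)
    have h1 : g ⬝ᵥ g = x ⬝ᵥ (V *ᵥ g) ᵥ* W := by rw [← e, dotProduct_mulVec]
    have h2 : ∑ j ∈ J, g j ^ 2 ≤ g ⬝ᵥ g := by
      simp only [dotProduct, ← sq]
      exact sum_le_sum_of_subset_of_nonneg (subset_univ _) fun j _ _ => sq_nonneg _
    have h3 := (cs x _).trans (mul_le_mul_of_nonneg_left ((hV g).2.trans
      (mul_le_mul_of_nonneg_left h2 (sq_nonneg _))) (dot_nonneg x))
    rw [← h1] at h3
    by_contra hc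
    nlinarith [mul_nonneg (sq_nonneg ρ) (dot_nonneg x)]
  have h1 : mean N (Wᵀ * V) 1 ≤ ENNReal.ofReal (ρ * L) := by
    rw [mean_eq hN PosSemidef.one, ENNReal.ofReal_mul hρ.le]
    refine (mean_mono hN (psd_conj PosSemidef.one _) p).trans ?_
    rw [mean_smul hN hρ.le]
    gcongr
  obtain ⟨g, hg⟩ : ∃ g : Fin d → ℝ, N ((Wᵀ * V) *ᵥ g) < 3 * ρ * L / d * ∑ j ∈ J, |g j| := by
    by_contra hc
    push Not at hc
    have i : ∀ j, Integrable (fun g : Fin d → ℝ => |g j|) (ga d) := fun j =>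
      (measurePreserving_eval (fun _ => gaussianReal 0 1) j).integrable_comp_of_integrable
        integrable_abs_gauss
    have h2 : ∀ j, ∫ g : Fin d → ℝ, |g j| ∂ga d = 2 * ph := fun j => by
      rw [← integral_abs_gauss]
      exact integral_comp_eval (μ := fun _ => gaussianReal 0 1) (f := fun t : ℝ => |t|)
        (by fun_prop)
    rw [mean_ga hN] at h1
    have h3 := (lintegral_mono fun g => ENNReal.ofReal_le_ofReal (hc g)).trans h1
    rw [← ofReal_integral_eq_lintegral_ofReal ((integrable_finsetSum _ fun j _ => i j).const_mul _)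
      (Filter.Eventually.of_forall fun g => by positivity), ENNReal.ofReal_le_ofReal_iff
      (by positivity), integral_const_mul, integral_finsetSum _ fun j _ => i j] at h3
    simp only [h2, sum_const, nsmul_eq_mul] at h3
    rw [div_mul_eq_mul_div, div_le_iff₀ d0, mul_assoc 3, mul_comm 3, mul_assoc] at h3
    have := le_of_mul_le_mul_left h3 (by positivity)
    nlinarith [ph_lower]
  have h2 : (∑ j ∈ J, |g j|) ^ 2 ≤ d * ∑ j ∈ J, g j ^ 2 := by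
    have := sq_sum_le_card_mul_sum_sq (s := J) (f := fun j => |g j|)
    simp only [sq_abs] at this
    refine this.trans (mul_le_mul_of_nonneg_right ?_ (by positivity))
    exact_mod_cast (card_le_univ J).trans_eq (Fintype.card_fin d)
  have h3 : N ((Wᵀ * V) *ᵥ g) ^ 2 * d < 9 * ρ ^ 2 * L ^ 2 * ∑ j ∈ J, g j ^ 2 := by
    have := pow_lt_pow_left₀ hg (apply_nonneg _ _) two_ne_zero
    rw [mul_pow] at this
    have h4 := this.trans_le (mul_le_mul_of_nonneg_left h2 (sq_nonneg _))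
    refine (mul_lt_mul_of_pos_right h4 d0).trans_eq ?_
    field_simp
    ring
  obtain ⟨s, hs⟩ : ∃ s, s = ∑ j ∈ J, g j ^ 2 := ⟨_, rfl⟩
  obtain ⟨h4, h5⟩ := hV g
  rw [← hs] at h3 h4 h5
  have s0 : 0 < s := (mul_pos_iff_of_pos_left (by positivity)).1 (lt_of_le_of_lt (by positivity) h3)
  have s1 : (√s)⁻¹ * (√s)⁻¹ = s⁻¹ := by rw [← mul_inv, mul_self_sqrt s0.le]
  refine ⟨(√s)⁻¹ • V *ᵥ g, ?_, ?_, ?_⟩
  · rw [smul_dotProduct, dotProduct_smul, smul_smul, s1, h4, smul_eq_mul, inv_mul_cancel₀ s0.ne']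
  · rw [smul_vecMul, smul_dotProduct, dotProduct_smul, smul_smul, s1, smul_eq_mul,
      inv_mul_le_iff₀ s0]
    linarith
  · rw [smul_vecMul, map_smul_eq_mul, mul_pow, Real.norm_eq_abs, sq_abs, sq, s1, mul_assoc,
      inv_mul_le_iff₀ s0, ← e]
    linarith

/-- The letters: points of a grid. -/
abbrev Let (d Q : ℕ) := Fin d → Fin (2 * Q + 1)

/-- The grid point of a letter. -/
noncomputable def gp {Q : ℕ} (l : Let d Q) : Fin d → ℝ := fun i => (l i : ℕ) / Q - 1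

/-- The vector of a letter. -/
noncomputable def lv {Q : ℕ} (l : Let d Q) : Fin d → ℝ := if gp l ⬝ᵥ gp l ≤ 1 then gp l else 0

lemma lv_le {Q : ℕ} (l : Let d Q) : lv l ⬝ᵥ lv l ≤ 1 := by
  unfold lv
  split_ifs with h
  exacts [h, by simp]

lemma exists_let {Q : ℕ} (hQ : 0 < Q) {η : ℝ} (h0 : 0 ≤ η) (h1 : η ≤ 1 / 100)
    (hη : (d : ℝ) ≤ η * Q ^ 2) {a : Fin d → ℝ} (ha : a ⬝ᵥ a = 1) :
    ∃ (l : Let d Q) (e : Fin d → ℝ), lv l = (9 / 10 : ℝ) • a + e ∧ e ⬝ᵥ e ≤ η ∧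
      1 / 2 ≤ lv l ⬝ᵥ lv l := by
  have Q0 : (0 : ℝ) < Q := by exact_mod_cast hQ
  have b : ∀ i, |a i| ≤ 1 := fun i => by
    rw [← sq_le_one_iff_abs_le_one, sq, ← ha]
    exact single_le_sum (f := fun i => a i * a i) (fun i _ => mul_self_nonneg _) (mem_univ i)
  have c : ∀ i, 0 ≤ Q * (9 / 10 * a i + 1) := fun i =>
    mul_nonneg Q0.le (by linarith [(abs_le.1 (b i)).1])
  let l : Let d Q := fun i => ⟨⌊Q * (9 / 10 * a i + 1)⌋₊, (Nat.floor_lt (c i)).2 (by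
    push_cast; nlinarith [(abs_le.1 (b i)).2])⟩
  obtain ⟨e, he⟩ : ∃ e, gp l = (9 / 10 : ℝ) • a + e := ⟨_, (add_sub_cancel _ _).symm⟩
  have h2 : e ⬝ᵥ e ≤ η := by
    have k : ∀ i, e i * e i ≤ 1 / Q ^ 2 := fun i => by
      have k1 : (⌊Q * (9 / 10 * a i + 1)⌋₊ : ℝ) / Q - 1 = 9 / 10 * a i + e i := congrFun he i
      have k2 := Nat.floor_le (c i)
      have k3 := Nat.lt_floor_add_one (Q * (9 / 10 * a i + 1))
      rw [sub_eq_iff_eq_add, div_eq_iff Q0.ne'] at k1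
      rw [le_div_iff₀ (by positivity)]
      nlinarith
    refine (sum_le_card_nsmul _ _ _ fun i _ => k i).trans ?_
    rwa [card_univ, Fintype.card_fin, nsmul_eq_mul, mul_one_div, div_le_iff₀ (by positivity)]
  have h3 : |a ⬝ᵥ e| ≤ 1 / 10 :=
    abs_le.2 (abs_le_of_sq_le_sq' (by nlinarith [cs a e]) (by norm_num))
  have h4 : gp l ⬝ᵥ gp l = 81 / 100 + 9 / 5 * a ⬝ᵥ e + e ⬝ᵥ e := by
    simp only [he, add_dotProduct, dotProduct_add, smul_dotProduct, dotProduct_smul, ha,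
      dotProduct_comm e a, smul_eq_mul]
    ring
  have h5 : lv l = gp l := if_pos (by linarith [(abs_le.1 h3).2])
  exact ⟨l, e, h5 ▸ he, h2, by rw [h5]; linarith [(abs_le.1 h3).1, dot_nonneg e]⟩

lemma vecMul_le (W : Matrix (Fin d) (Fin n) ℝ) (e : Fin d → ℝ) :
    (e ᵥ* W) ⬝ᵥ (e ᵥ* W) ≤ e ⬝ᵥ e * ∑ i, W i ⬝ᵥ W i := by
  have : ∑ i, W i ⬝ᵥ W i = ∑ j, Wᵀ j ⬝ᵥ Wᵀ j := sum_comm
  rw [this, mul_sum]
  exact sum_le_sum fun j _ => (sq _).ge.trans (cs e (Wᵀ j))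

lemma exists_good {T : Type} [Fintype T] (u : Matrix T (Fin n) ℝ) (h1 : ∀ j, u j ⬝ᵥ u j = 1)
    {N : ℕ} (hN : 0 < N) (hd : d = 2 ^ 20 * N ^ 4)
    (h : ∫⁻ g, ENNReal.ofReal ‖u *ᵥ g‖ ∂ga n ≤ ENNReal.ofReal (2 * N))
    (W : Matrix (Fin d) (Fin n) ℝ) (hW : ∑ i, W i ⬝ᵥ W i ≤ 22 * N ^ 2 * d) :
    ∃ l : Let d (113 * N * d), 1 / 2 ≤ lv l ⬝ᵥ lv l ∧
      (lv l ᵥ* W) ⬝ᵥ (lv l ᵥ* W) ≤ 147 * N ^ 2 ∧ ∀ p, |u p ⬝ᵥ lv l ᵥ* W| ≤ 1 / 12 := by
  have d0 : 0 < d := by rw [hd]; positivity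
  have N1 : (1 : ℝ) ≤ N := by exact_mod_cast hN
  have d1 : (1 : ℝ) ≤ d := by exact_mod_cast d0
  have c : Continuous fun y : Fin n → ℝ => ‖u *ᵥ y‖ := by fun_prop
  obtain ⟨a, a1, a2, a3⟩ := exists_dir d0 (N := (normSeminorm ℝ (T → ℝ)).comp u.mulVecLin) c W
    (ρ := 7 * N) (L := 2 * N) (by positivity) (by positivity)
    (by nlinarith [mul_nonneg (sq_nonneg (N : ℝ)) (Nat.cast_nonneg (α := ℝ) d)])
    ((mean_ga c 1).trans_le (by simpa using h))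
  have p : (1 : ℝ) ≤ N ^ 2 * d := by nlinarith
  obtain ⟨l, e, e1, e2, e3⟩ := exists_let (Q := 113 * N * d) (by positivity)
    (η := 1 / (576 * (22 * N ^ 2 * d))) (by positivity)
    (one_div_le_one_div_of_le (by norm_num) (by nlinarith))
    (by push_cast; rw [one_div_mul_eq_div, le_div_iff₀ (by positivity)]
        nlinarith [sq_nonneg ((N : ℝ) * d)]) a1
  have e4 : (e ᵥ* W) ⬝ᵥ (e ᵥ* W) ≤ 1 / 576 := by
    refine (vecMul_le W e).trans ((mul_le_mul e2 hW (sum_nonneg fun i _ => dot_nonneg _)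
      (by positivity)).trans_eq ?_)
    field_simp
  refine ⟨l, e3, ?_, fun p => ?_⟩
  · have := dot_nonneg ((9 / 10 : ℝ) • a ᵥ* W - e ᵥ* W)
    simp only [e1, add_vecMul, smul_vecMul, add_dotProduct, dotProduct_add, sub_dotProduct,
      dotProduct_sub, smul_dotProduct, dotProduct_smul, smul_eq_mul] at this ⊢
    nlinarith
  · have b1 : |u p ⬝ᵥ a ᵥ* W| ≤ ‖u *ᵥ a ᵥ* W‖ := norm_le_pi_norm (u *ᵥ a ᵥ* W) p
    have b2 : ‖u *ᵥ a ᵥ* W‖ ^ 2 * d ≤ 9 * (7 * N) ^ 2 * (2 * N) ^ 2 := a3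
    have b3 : ‖u *ᵥ a ᵥ* W‖ ≤ 1 / 24 := by
      refine (abs_le_of_sq_le_sq' (le_of_mul_le_mul_right (b2.trans ?_)
        (zero_lt_one.trans_le d1)) (by norm_num)).2
      rw [hd]
      push_cast
      nlinarith [pow_pos (zero_lt_one.trans_le N1) 4]
    have b4 := abs_le_of_sq_le_sq' (b := 1 / 24) ((cs (u p) (e ᵥ* W)).trans (by
      rw [h1]; linarith)) (by norm_num)
    have b5 := abs_le.1 (b1.trans b3)
    rw [e1, add_vecMul, smul_vecMul, dotProduct_add, dotProduct_smul, smul_eq_mul, abs_le]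
    constructor <;> linarith [b4.1, b4.2, b5.1, b5.2]

end Pool.Agent.P.MP_7b0970_co.Ob
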