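import Pool.Agent.P.MP_7b0970_co.Ob.Core

/-! The random input and the lower bound against randomised rules. -/

open MeasureTheory ProbabilityTheory Matrix Real Finset
open scoped ENNReal MatrixOrder

namespace Pool.Agent.P.MP_7b0970_co.Ob

open On

variable {m n : ℕ} {R T : Type} [Fintype R] [Fintype T]

lemma sum_ext {I : Type} [Fintype I] {e : R → I} (he : Function.Injective e) (g : R → ℝ)
    (h : I → ℝ → ℝ) (h0 : ∀ i, h i 0 = 0) :
    ∑ i, h i (Function.extend e g 0 i) = ∑ r, h (e r) (g r) := by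
  classical
  refine (sum_of_injOn e he.injOn (fun _ _ => mem_univ _) (fun i _ hi => ?_)
    fun r _ => by rw [he.extend_apply]).symm
  rw [Function.extend_apply' _ _ _ fun ⟨r, hr⟩ => hi ⟨r, mem_coe.2 (mem_univ r), hr⟩]
  exact h0 i

/-- A matrix placed in given rows and columns of a larger matrix. -/
noncomputable def big (e : R → Fin m) (τ : T → Fin n) (A : Matrix R T ℝ) :
    Matrix (Fin m) (Fin n) ℝ :=
  of fun i => Function.extend τ (fun t => Function.extend e (fun r => A r t) 0 i) 0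

variable {e : R → Fin m} {τ : T → Fin n}

lemma big_adm (he : Function.Injective e) (hτ : Function.Injective τ) {A : Matrix R T ℝ}
    (h : ∀ t, ∑ r, A r t ^ 2 ≤ 1) : Adm (big e τ A) := fun j => by
  by_cases hj : ∃ t, τ t = j
  · obtain ⟨t, rfl⟩ := hj
    simp only [big, of_apply, hτ.extend_apply]
    exact (sum_ext he _ (fun _ x => x ^ 2) (by simp)).trans_le (h t)
  · simp [big, Function.extend_apply' _ _ _ hj]

omit [Fintype R] in
lemma big_mul (he : Function.Injective e) (hτ : Function.Injective τ) (A : Matrix R T ℝ)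
    (U : Matrix (Fin n) (Fin n) ℝ) (r : R) :
    (big e τ A * U) (e r) = (A * U.submatrix τ id) r := by
  funext j
  simp only [mul_apply, big, of_apply, he.extend_apply]
  exact sum_ext hτ _ (fun i x => x * U i j) (by simp)

omit [Fintype R] [Fintype T] in
lemma big_congr (hτ : Function.Injective τ) {A A' : Matrix R T ℝ} {l : Fin n}
    (h : ∀ t, τ t = l → ∀ r, A r t = A' r t) (i : Fin m) : big e τ A i l = big e τ A' i l := by
  by_cases hj : ∃ t, τ t = l
  · obtain ⟨t, rfl⟩ := hj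
    simp only [big, of_apply, hτ.extend_apply, h t rfl]
  · simp [big, Function.extend_apply' _ _ _ hj]

variable {B : Type} [Fintype B] [DecidableEq B] {d k Q : ℕ}

/-- The input: a fresh row for each column, and the rows of the blocks. -/
noncomputable def sm (x : B → Fin k → Let d Q) :
    Matrix ((B × Fin k) ⊕ (B × Fin d)) (B × Fin k) ℝ :=
  of (Sum.elim (fun t => Pi.single t (3 / 5)) fun a => (4 / 5 : ℝ) • cf x a.1 k a.2)

lemma sm_col (x : B → Fin k → Let d Q) (t : B × Fin k) : ∑ r, sm x r t ^ 2 ≤ 1 := by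
  have := lv_le (x t.1 t.2)
  simp only [dotProduct, ← sq] at this
  simp only [sm, Fintype.sum_sum_type, Fintype.sum_prod_type_right (α₁ := B) (α₂ := Fin d),
    of_apply, Sum.elim_inl, Sum.elim_inr, cf, Pi.smul_apply, Pi.single_apply, smul_eq_mul,
    Fin.is_lt, and_true, mul_pow, ite_pow, zero_pow two_ne_zero, sum_ite_eq, mem_univ, if_true,
    ← mul_sum]
  linarith

lemma facts {e : (B × Fin k) ⊕ (B × Fin d) → Fin m} {τ : B × Fin k → Fin n}
    (he : Function.Injective e) (hτ : Function.Injective τ) (x : B → Fin k → Let d Q)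
    {C : Matrix (Fin n) (Fin n) ℝ} (hC : C.PosSemidef) (h1 : ∀ j, C j j = 1) {K : ℝ} (hK : 0 ≤ K)
    (h : mean (fun x => ‖x‖) (big e τ (sm x)) C ≤ ENNReal.ofReal K) :
    ∃ u : Matrix (B × Fin k) (Fin n) ℝ, C.submatrix τ τ = u * uᵀ ∧
      (∀ j, u j ⬝ᵥ u j = 1) ∧ ∫⁻ g, ENNReal.ofReal ‖u *ᵥ g‖ ∂ga n ≤ ENNReal.ofReal (2 * K) ∧
      ∀ b i, (cf x b k * u) i ⬝ᵥ (cf x b k * u) i ≤ 4 * K ^ 2 := by
  obtain ⟨U, rfl⟩ : ∃ U : Matrix (Fin n) (Fin n) ℝ, C = U * Uᵀ := by
    obtain ⟨U, hU⟩ := CStarAlgebra.nonneg_iff_eq_star_mul_self.1 hC.nonneg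
    exact ⟨Uᵀ, hU⟩
  have e1 : big e τ (sm x) * (U * Uᵀ) * (big e τ (sm x))ᵀ =
      big e τ (sm x) * U * (1 : Matrix (Fin n) (Fin n) ℝ) * (big e τ (sm x) * U)ᵀ := by
    simp [Matrix.mul_assoc]
  rw [mean_eq continuous_norm hC, e1] at h
  refine ⟨U.submatrix τ id, rfl, fun j => h1 (τ j), ?_, fun b i => ?_⟩
  · rw [← mean_eq continuous_norm PosSemidef.one, mean_ga continuous_norm] at h
    rw [ENNReal.ofReal_mul zero_le_two]
    refine le_trans (lintegral_mono fun g => ?_) ((lintegral_const_mul _ (by fun_prop)).trans_le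
      (mul_le_mul_right h _))
    rw [← ENNReal.ofReal_mul zero_le_two]
    refine ENNReal.ofReal_le_ofReal ((pi_norm_le_iff_of_nonneg (by positivity)).2 fun t => ?_)
    have h2 := norm_le_pi_norm ((big e τ (sm x) * U) *ᵥ g) (e (.inl t))
    have h3 : (sm x * U.submatrix τ id) (.inl t) = (3 / 5 : ℝ) • U (τ t) :=
      single_vecMul _ t (3 / 5)
    rw [show ((big e τ (sm x) * U) *ᵥ g) (e (.inl t)) = (big e τ (sm x) * U) (e (.inl t)) ⬝ᵥ g
      from rfl, big_mul he hτ, h3, smul_dotProduct, norm_smul] at h2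
    have h4 : ‖(U.submatrix τ id *ᵥ g) t‖ = ‖U (τ t) ⬝ᵥ g‖ := rfl
    rw [h4]
    norm_num at h2 ⊢
    linarith [abs_nonneg (U (τ t) ⬝ᵥ g)]
  · have h2 := var_le (κ := 1) one_pos hK (fun x => (one_mul _).le) (psd_conj PosSemidef.one _) h
      (e (.inr (b, i)))
    have h3 : (sm x * U.submatrix τ id) (.inr (b, i)) =
        (4 / 5 : ℝ) • (cf x b k * U.submatrix τ id) i :=
      smul_vecMul (4 / 5 : ℝ) (cf x b k i) _
    rw [conj_diag, one_mulVec, big_mul he hτ, h3, smul_dotProduct, dotProduct_smul] at h2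
    simp only [smul_eq_mul, div_one] at h2
    nlinarith [sq_nonneg K]

lemma size {N : ℕ} (hN : 0 < N) : ∃ d k Q G H : ℕ, d = 2 ^ 20 * N ^ 4 ∧ k = 17 * N ^ 2 * d ∧
    Q = 113 * N * d ∧ 2 * exp ((2 ^ 21 * N ^ 3) ^ 2 / 2) < G ∧
    H = 2 * G * Fintype.card (Let d Q) ^ k ∧ d ≤ k ∧ 2 * (G * H * k) ≤ 2 ^ (2 ^ 55 * N ^ 11) := by
  obtain ⟨j, hj⟩ : ∃ j, j = 2 ^ 42 * N ^ 6 := ⟨_, rfl⟩
  obtain ⟨d, hd⟩ : ∃ d, d = 2 ^ 20 * N ^ 4 := ⟨_, rfl⟩
  obtain ⟨k, hk⟩ : ∃ k, k = 17 * N ^ 2 * d := ⟨_, rfl⟩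
  refine ⟨d, k, _, 2 ^ (j + 2), _, hd, hk, rfl, ?_, rfl, by nlinarith [pow_pos hN 2], ?_⟩
  · have h1 : ((2 : ℝ) ^ 21 * N ^ 3) ^ 2 / 2 = j * (1 / 2) := by rw [hj]; push_cast; ring
    have h2 : exp (1 / 2) ≤ 2 := by
      refine (abs_le_of_sq_le_sq' ?_ zero_le_two).2
      rw [← exp_nat_mul]
      norm_num
      linarith [exp_one_lt_d9]
    rw [h1, exp_nat_mul]
    push_cast
    have := pow_le_pow_left₀ (exp_pos _).le h2 j
    rw [pow_add]
    linarith [pow_pos (zero_lt_two' ℝ) j]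
  · have h1 : 2 * (113 * N * d) + 1 ≤ 2 ^ (33 * N) := by
      have a : N ^ 5 ≤ (2 ^ N) ^ 5 := Nat.pow_le_pow_left Nat.lt_two_pow_self.le 5
      have b : 2 ^ 28 ≤ 2 ^ (28 * N) := Nat.pow_le_pow_right two_pos (by omega)
      rw [show 33 * N = 28 * N + N * 5 by ring, pow_add, pow_mul 2 N]
      refine le_trans ?_ (Nat.mul_le_mul b a)
      have := pow_pos hN 5
      rw [hd]
      nlinarith
    have h2 : Fintype.card (Let d (113 * N * d)) ^ k ≤ 2 ^ (33 * N * d * k) := by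
      simp only [Fintype.card_fun, Fintype.card_fin, pow_mul _ _ k, pow_mul _ _ d]
      gcongr
    have h3 : 2 * (2 ^ (j + 2) * (2 * 2 ^ (j + 2) * 2 ^ (33 * N * d * k)) * 2 ^ k) =
        2 ^ (2 * j + 6 + 33 * N * d * k + k) := by ring
    refine le_trans (by gcongr; exact Nat.lt_two_pow_self.le)
      (h3.trans_le (Nat.pow_le_pow_right two_pos ?_))
    have a : N ^ 6 ≤ N ^ 11 := Nat.pow_le_pow_right hN (by norm_num)
    have b := pow_pos hN 11
    subst hj hk hd
    nlinarith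

theorem half (hm : 0 < m) (hn : 0 < n) : ∃ (X : Type) (_ : Fintype X) (_ : Nonempty X)
    (A : X → Matrix (Fin m) (Fin n) ℝ), (∀ x, Adm (A x)) ∧ ∀ S, Online S → ∀ s : Finset X,
      (∀ x ∈ s, mean (fun x => ‖x‖) (A x) (S (A x)) <
        ENNReal.ofReal (log (min m n : ℕ) ^ (1 / 11 : ℝ) / 96)) → 2 * #s ≤ Fintype.card X := by
  obtain ⟨K, hK⟩ : ∃ K, K = log (min m n : ℕ) ^ (1 / 11 : ℝ) / 96 := ⟨_, rfl⟩
  have l0 : 0 ≤ log (min m n : ℕ) := log_natCast_nonneg _
  rw [← hK]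
  rcases le_or_gt K (1 / 2) with h | h
  · obtain ⟨A, hA⟩ : ∃ A : Matrix (Fin m) (Fin n) ℝ, A = big (fun _ : Unit => ⟨0, hm⟩)
      (fun _ : Unit => ⟨0, hn⟩) 1 := ⟨_, rfl⟩
    have i1 : Function.Injective fun _ : Unit => (⟨0, hm⟩ : Fin m) := fun _ _ _ => rfl
    have i2 : Function.Injective fun _ : Unit => (⟨0, hn⟩ : Fin n) := fun _ _ _ => rfl
    have h1 : Adm A := hA ▸ big_adm i1 i2 (by simp)
    refine ⟨Unit, inferInstance, inferInstance, fun _ => A, fun _ => h1, fun S hS s hs => ?_⟩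
    rw [eq_empty_of_forall_notMem (s := s) fun x hx => ?_]
    · simp
    have h2 := (hs x hx).le.trans (ENNReal.ofReal_le_ofReal h)
    rw [mean_eq continuous_norm (hS.1 A h1).1] at h2
    have h3 := var_le (κ := 1) one_pos (by norm_num) (fun x => (one_mul _).le)
      (psd_conj (hS.1 A h1).1 A) h2 ⟨0, hm⟩
    have h4 : A ⟨0, hm⟩ = Pi.single ⟨0, hn⟩ 1 := by
      have := big_mul i1 i2 1 1 ()
      rw [Matrix.mul_one, Matrix.one_mul, ← hA] at this
      rw [this]
      funext j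
      simp [one_apply, Pi.single_apply, eq_comm]
    rw [conj_diag, h4, ← diag_eq, (hS.1 A h1).2] at h3
    norm_num at h3
  have hN : 0 < ⌈K⌉₊ := Nat.ceil_pos.2 (by linarith)
  obtain ⟨d, k, Q, G, H, hd, hk, hQ, hG, hH, dk, sz⟩ := size hN
  have sz' : 2 * (G * H * k) ≤ min m n := by
    have a : (⌈K⌉₊ : ℝ) ^ 11 ≤ (3 * K) ^ 11 := pow_le_pow_left₀ (Nat.cast_nonneg _)
      (by linarith [Nat.ceil_lt_add_one (show 0 ≤ K by linarith)]) _
    have b : (3 * K) ^ 11 = log (min m n : ℕ) / 2 ^ 55 := by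
      rw [hK, show ∀ y : ℝ, 3 * (y / 96) = y / 32 from fun y => by ring, div_pow, one_div,
        show (11 : ℝ) = (11 : ℕ) by norm_num, rpow_inv_natCast_pow l0 (by norm_num)]
      norm_num
    refine sz.trans ((Nat.cast_le (α := ℝ)).1 ?_)
    rw [← log_le_log_iff (by positivity) (by exact_mod_cast lt_min hm hn), Nat.cast_pow, log_pow]
    push_cast at a b l0 ⊢
    rw [b, le_div_iff₀ (by positivity)] at a
    nlinarith [log_two_lt_d9, pow_nonneg (Nat.cast_nonneg (α := ℝ) ⌈K⌉₊) 11]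
  obtain ⟨e⟩ : Nonempty ((((Fin G × Fin H) × Fin k) ⊕ ((Fin G × Fin H) × Fin d)) ↪ Fin m) :=
    Function.Embedding.nonempty_of_card_le (by
      simp only [Fintype.card_sum, Fintype.card_prod, Fintype.card_fin]
      have := Nat.mul_le_mul_left (G * H) dk
      omega)
  let τ : (Fin G × Fin H) × Fin k → Fin n := fun t =>
    Fin.castLE (by omega) (finProdFinEquiv (finProdFinEquiv t.1, t.2))
  have hτ : Function.Injective τ := fun t t' h => by
    have := finProdFinEquiv.injective (Fin.castLE_injective _ h)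
    exact Prod.ext (finProdFinEquiv.injective (Prod.mk.inj this).1) (Prod.mk.inj this).2
  have ad : ∀ x : Fin G × Fin H → Fin k → Let d Q, Adm (big e τ (sm x)) := fun x =>
    big_adm e.injective hτ (sm_col x)
  refine ⟨_, inferInstance, inferInstance, _, ad, fun S hS s hs => ?_⟩
  convert core (n := n) hN hd hk hQ hG hH (ι := fun t => τ t) (Fin.val_injective.comp hτ)
    (fun b s s' h => by simpa [τ] using h) (fun x => (S (big e τ (sm x))).submatrix τ τ)
    (fun x y t h p p' a b => hS.2 _ _ (ad x) (ad y) _ _ fun i l hl => big_congr hτ ?_ i) s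
    fun x hx => facts e.injective hτ x (hS.1 _ (ad x)).1 (hS.1 _ (ad x)).2 (Nat.cast_nonneg _)
      ((hs x hx).le.trans (ENNReal.ofReal_le_ofReal (Nat.le_ceil K)))
  rintro q rfl (r | r)
  · rfl
  · simp only [sm, cf, of_apply, Sum.elim_inr, Pi.smul_apply,
      h q (lt_of_le_of_lt hl (max_lt (α := Fin n) a b))]

theorem main (hm : 0 < m) (hn : 0 < n) {Ω : Type} [MeasurableSpace Ω] (μ : Measure Ω)
    [IsProbabilityMeasure μ] (S : Ω → Matrix (Fin m) (Fin n) ℝ → Matrix (Fin n) (Fin n) ℝ)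
    (hS : ∀ ω, Online (S ω)) : ∃ A, Adm A ∧
      1 / 2 ≤ μ {ω | ENNReal.ofReal (log (min m n : ℕ) ^ (1 / 11 : ℝ) / 96) ≤
        mean (fun x => ‖x‖) A (S ω A)} := by
  classical
  obtain ⟨X, _, _, A, hA, h⟩ := half hm hn
  set E : X → Set Ω := fun x => toMeasurable μ {ω | ENNReal.ofReal
    (log (min m n : ℕ) ^ (1 / 11 : ℝ) / 96) ≤ mean (fun x => ‖x‖) (A x) (S ω (A x))}
  have mE : ∀ x, MeasurableSet (E x) := fun x => measurableSet_toMeasurable _ _
  obtain ⟨x, -, hx⟩ := exists_le_of_sum_le (s := (univ : Finset X)) univ_nonempty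
    (f := fun _ => (1 / 2 : ℝ)) (g := fun x => μ.real (E x)) (by
      simp only [← integral_indicator_one (mE _)]
      rw [← integral_finsetSum _ fun x _ => (integrable_const 1).indicator (mE x)]
      refine le_trans (by simp) (integral_mono (integrable_const (∑ _ : X, (1 / 2 : ℝ)))
        (integrable_finsetSum _ fun x _ => (integrable_const 1).indicator (mE x)) fun ω => ?_)
      have h1 := h (S ω) (hS ω) {x | ω ∉ E x} fun x hx =>
        not_le.1 fun a => (mem_filter.1 hx).2 (subset_toMeasurable _ _ a)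
      have h2 := card_filter_add_card_filter_not (s := (univ : Finset X)) fun x => ω ∈ E x
      simp only [Set.indicator_apply, Pi.one_apply, sum_boole, sum_const, nsmul_eq_mul]
      rw [← card_univ, ← h2] at h1
      rw [← h2]
      have h3 := (Nat.cast_le (α := ℝ)).2 h1
      push_cast at h3 ⊢
      linarith)
  refine ⟨A x, hA x, ?_⟩
  rw [← measure_toMeasurable, ← ENNReal.toReal_le_toReal (by simp) (measure_ne_top _ _)]
  exact le_trans (by simp) hx

end Pool.Agent.P.MP_7b0970_co.Ob
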