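import Pool.Agent.P.MP_7b0970_co.On.Ord

/-! Shifts of symmetric sets, and the number of separated unit vectors of small width. -/

open MeasureTheory ProbabilityTheory Matrix Real Finset
open scoped ENNReal

namespace Pool.Agent.P.MP_7b0970_co.Ob

open On

variable {m n : ℕ}

/-- The standard Gaussian measure. -/
noncomputable abbrev ga (n : ℕ) : Measure (Fin n → ℝ) := Measure.pi fun _ => gaussianReal 0 1

lemma mean_ga {N : (Fin m → ℝ) → ℝ} (hN : Continuous N) (A : Matrix (Fin m) (Fin n) ℝ) :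
    mean N A 1 = ∫⁻ g, ENNReal.ofReal (N (A *ᵥ g)) ∂ga n := by
  unfold mean
  rw [multivariateGaussian_zero_one, ← map_pi_eq_stdGaussian,
    lintegral_map (by fun_prop) (by fun_prop)]

/-- Its density. -/
noncomputable def rho (z : Fin n → ℝ) : ℝ := ∏ i, gaussianPDFReal 0 1 (z i)

lemma rho_eq (z : Fin n → ℝ) : rho z = ph ^ n * exp (-(z ⬝ᵥ z) / 2) := by
  simp only [rho, pdf_eq, prod_mul_distrib, ← exp_sum, prod_const, card_univ, Fintype.card_fin,
    dotProduct, ← mul_sum, sq]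
  congr 2
  ring

lemma rho_meas : Measurable fun z : Fin n → ℝ => ENNReal.ofReal (rho z) := by
  simp only [rho_eq]
  fun_prop

lemma ga_eq : ga n = volume.withDensity fun z => ENNReal.ofReal (rho z) := by
  refine Measure.pi_eq fun s hs => ?_
  have hi : Integrable (rho : (Fin n → ℝ) → ℝ) := Integrable.fintype_prod
    (f := fun _ : Fin n => gaussianPDFReal 0 1) (μ := fun _ => volume)
    fun _ => integrable_gaussianPDFReal 0 1
  rw [withDensity_apply _ (MeasurableSet.univ_pi hs), ← ofReal_integral_eq_lintegral_ofReal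
    hi.integrableOn (Filter.Eventually.of_forall fun z =>
      prod_nonneg fun _ _ => gaussianPDFReal_nonneg _ _ _), volume_pi, Measure.restrict_pi_pi]
  unfold rho
  rw [integral_fintype_prod_eq_prod (f := fun _ : Fin n => gaussianPDFReal 0 1),
    ENNReal.ofReal_prod_of_nonneg fun i _ => integral_nonneg fun t => gaussianPDFReal_nonneg _ _ _]
  exact prod_congr rfl fun i _ => (gaussianReal_apply_eq_integral _ one_ne_zero _).symm

lemma shift_ge {B : Set (Fin n → ℝ)} (hB : MeasurableSet B) (hs : ∀ z, -z ∈ B ↔ z ∈ B)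
    (h : Fin n → ℝ) :
    ENNReal.ofReal (exp (-(h ⬝ᵥ h) / 2)) * ga n B ≤ ga n {z | z - h ∈ B} := by
  have hB' : MeasurableSet {z | z - h ∈ B} := hB.preimage (by fun_prop)
  have e1 : ga n {z | z - h ∈ B} = ∫⁻ z, B.indicator (fun z => ENNReal.ofReal (rho (z + h))) z := by
    rw [ga_eq, withDensity_apply _ hB', ← lintegral_indicator hB',
      ← lintegral_add_right_eq_self _ h]
    exact lintegral_congr fun z => by by_cases k : z ∈ B <;> simp [k]
  have e2 : ga n {z | z - h ∈ B} =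
      ∫⁻ z, B.indicator (fun z => ENNReal.ofReal (rho (-z + h))) z := by
    rw [e1, ← lintegral_neg_eq_self]
    exact lintegral_congr fun z => by by_cases k : z ∈ B <;> simp [k, hs]
  refine (ENNReal.mul_le_mul_iff_right (a := 2) (by norm_num) (by norm_num)).1 ?_
  conv_rhs => rw [two_mul]; lhs; rw [e1]
  rw [e2, lintegral_indicator hB, lintegral_indicator hB,
    ← lintegral_add_left (f := fun a => ENNReal.ofReal (rho (a + h)))
      (rho_meas.comp (by fun_prop)), ga_eq, withDensity_apply _ hB,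
    ← lintegral_const_mul _ rho_meas, ← lintegral_const_mul _ (rho_meas.const_mul _)]
  refine lintegral_mono fun z => ?_
  have p : ∀ z : Fin n → ℝ, 0 ≤ rho z := fun z =>
    prod_nonneg fun _ _ => gaussianPDFReal_nonneg _ _ _
  rw [← ENNReal.ofReal_add (p _) (p _), ← ENNReal.ofReal_mul (exp_pos _).le,
    ← ENNReal.ofReal_ofNat, ← ENNReal.ofReal_mul (by norm_num)]
  refine ENNReal.ofReal_le_ofReal ?_
  have a : ∀ z : Fin n → ℝ, rho (z + h) =
      ph ^ n * (exp (-(h ⬝ᵥ h) / 2) * exp (-(z ⬝ᵥ z) / 2)) * exp (-(z ⬝ᵥ h)) := fun z => by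
    rw [rho_eq, mul_assoc, ← exp_add, ← exp_add, add_dotProduct, dotProduct_add, dotProduct_add,
      dotProduct_comm h z]
    congr 2
    ring
  rw [a, a, rho_eq, neg_dotProduct_neg, neg_dotProduct, neg_neg]
  have b : 2 ≤ exp (-(z ⬝ᵥ h)) + exp (z ⬝ᵥ h) := by
    linarith [add_one_le_exp (-(z ⬝ᵥ h)), add_one_le_exp (z ⬝ᵥ h)]
  nlinarith [mul_le_mul_of_nonneg_left b (show 0 ≤ ph ^ n * (exp (-(h ⬝ᵥ h) / 2) *
    exp (-(z ⬝ᵥ z) / 2)) by have := ph_pos; positivity)]

lemma sud {T : Type} [Fintype T] (u : Matrix T (Fin n) ℝ) (h1 : ∀ j, u j ⬝ᵥ u j = 1) {θ L : ℝ}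
    (hθ : 0 < θ) (hL : 0 < L) (s : Finset T)
    (h2 : ∀ i ∈ s, ∀ j ∈ s, i ≠ j → u i ⬝ᵥ u j ≤ 1 - θ)
    (h : ∫⁻ g, ENNReal.ofReal ‖u *ᵥ g‖ ∂ga n ≤ ENNReal.ofReal L) :
    (#s : ℝ) ≤ 2 * exp ((4 * L / θ) ^ 2 / 2) := by
  set B : Set (Fin n → ℝ) := {g | ‖u *ᵥ g‖ < 2 * L}
  have hB : MeasurableSet B := measurableSet_lt (by fun_prop) (by fun_prop)
  have b1 : (ga n).real Bᶜ ≤ 1 / 2 := by
    have := ENNReal.toReal_mono ENNReal.ofReal_ne_top ((mul_meas_ge_le_lintegral (μ := ga n)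
      (f := fun g => ENNReal.ofReal ‖u *ᵥ g‖) (by fun_prop) (ENNReal.ofReal (2 * L))).trans h)
    rw [ENNReal.toReal_mul, ENNReal.toReal_ofReal (by linarith), ENNReal.toReal_ofReal hL.le,
      ← measureReal_def] at this
    have h3 := measureReal_mono (μ := ga n) (s₁ := Bᶜ) (s₂ := {g | ENNReal.ofReal (2 * L) ≤
      ENNReal.ofReal ‖u *ᵥ g‖}) fun g hg => ENNReal.ofReal_le_ofReal (not_lt.1 hg)
    nlinarith
  have b2 : 1 / 2 ≤ (ga n).real B := by
    rw [probReal_compl_eq_one_sub hB] at b1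
    linarith
  set t := 4 * L / θ with ht
  have b3 : ∀ j, exp (-t ^ 2 / 2) * (1 / 2) ≤ (ga n).real {z | z - t • u j ∈ B} := fun j => by
    have := ENNReal.toReal_mono (measure_ne_top _ _)
      (shift_ge hB (fun z => by simp [B, mulVec_neg]) (t • u j))
    rw [ENNReal.toReal_mul, ENNReal.toReal_ofReal (exp_pos _).le, smul_dotProduct,
      dotProduct_smul, h1, smul_eq_mul, smul_eq_mul, mul_one, ← sq] at this
    exact (mul_le_mul_of_nonneg_left b2 (exp_pos _).le).trans this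
  have b4 : ∀ i ∈ s, ∀ j ∈ s, i ≠ j → ∀ z, z - t • u i ∈ B → u j ⬝ᵥ z < u i ⬝ᵥ z :=
    fun i hi j hj e z hz => by
      have k : ∀ l, |u l ⬝ᵥ z - t * (u l ⬝ᵥ u i)| < 2 * L := fun l => by
        simpa [mulVec] using (norm_le_pi_norm (u *ᵥ (z - t • u i)) l).trans_lt hz
      have k1 := abs_lt.1 (k i)
      have k2 := abs_lt.1 (k j)
      have k3 := mul_le_mul_of_nonneg_left (h2 j hj i hi e.symm) (show 0 ≤ t by positivity)
      have k4 : t * θ = 4 * L := by rw [ht]; field_simp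
      rw [h1] at k1
      nlinarith
  have b5 := measureReal_biUnion_finset (μ := ga n) (s := s)
    (f := fun j => {z | z - t • u j ∈ B}) (fun i hi j hj e => Set.disjoint_left.2
      fun z a b => lt_asymm (b4 i hi j hj e z a) (b4 j hj i hi e.symm z b))
    fun j _ => hB.preimage (by fun_prop)
  have b6 := (card_nsmul_le_sum s _ _ fun j _ => b3 j).trans (b5.symm.le.trans measureReal_le_one)
  have b7 : exp (-t ^ 2 / 2) * exp (t ^ 2 / 2) = 1 := by rw [← exp_add]; simp [neg_div]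
  rw [nsmul_eq_mul] at b6
  nlinarith [mul_le_mul_of_nonneg_right b6 (exp_pos (t ^ 2 / 2)).le]

end Pool.Agent.P.MP_7b0970_co.Ob
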